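import Pool.Agent.W785.FD.Stms

set_option autoImplicit false
set_option linter.unusedSectionVars false

open MeasureTheory Metric Set Filter
open scoped ENNReal NNReal Topology
open Pool.Agent.W785.FD

namespace Pool.Agent.W576.FD

universe u

variable {X : Type u} [MetricSpace X] [MeasurableSpace X]

lemma le_capB_iff (μ : Measure X) (p : ℝ) (A : Set X) (x : X) (r : ℝ) (c : ℝ≥0∞) :
    c ≤ capB μ p A x r ↔ ∀ u : X → ℝ, AEMeasurable u μ →
      ∫⁻ y, (ENNReal.ofReal |u y|) ^ p ∂μ < ∞ → (∀ y ∈ A, 1 ≤ u y) →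
      (∀ y, y ∉ ball x r → u y = 0) → ∀ g, WUG μ p u g → c ≤ ∫⁻ y, g y ^ p ∂μ := by
  simp only [capB, En, le_iInf_iff]

lemma capB_le (μ : Measure X) (p : ℝ) (A : Set X) (x : X) (r : ℝ) {u : X → ℝ}
    (h1 : AEMeasurable u μ) (h2 : ∫⁻ y, (ENNReal.ofReal |u y|) ^ p ∂μ < ∞)
    (h3 : ∀ y ∈ A, 1 ≤ u y) (h4 : ∀ y, y ∉ ball x r → u y = 0) {g : X → ℝ≥0∞}
    (h5 : WUG μ p u g) : capB μ p A x r ≤ ∫⁻ y, g y ^ p ∂μ :=
  (le_capB_iff μ p A x r _).1 le_rfl u h1 h2 h3 h4 g h5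

lemma lint_add_lt {μ : Measure X} {p : ℝ} (hp : 1 < p) {f g : X → ℝ≥0∞} (hf : AEMeasurable f μ) :
    ∫⁻ y, (f y + g y) ^ p ∂μ ≤ 2 ^ (p - 1) * (∫⁻ y, f y ^ p ∂μ + ∫⁻ y, g y ^ p ∂μ) := by
  have h2 : (2 : ℝ≥0∞) ^ (p - 1) ≠ ∞ := ENNReal.rpow_ne_top_of_nonneg (by linarith) (by simp)
  calc ∫⁻ y, (f y + g y) ^ p ∂μ ≤ ∫⁻ y, 2 ^ (p - 1) * (f y ^ p + g y ^ p) ∂μ :=
        lintegral_mono (fun y => ENNReal.rpow_add_le_mul_rpow_add_rpow _ _ hp.le)
    _ = 2 ^ (p - 1) * ∫⁻ y, (f y ^ p + g y ^ p) ∂μ := lintegral_const_mul' _ _ h2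
    _ = 2 ^ (p - 1) * (∫⁻ y, f y ^ p ∂μ + ∫⁻ y, g y ^ p ∂μ) := by
        rw [lintegral_add_left' (hf.pow_const p)]

lemma lint_add_fin {μ : Measure X} {p : ℝ} (hp : 1 < p) {f g : X → ℝ≥0∞} (hf : AEMeasurable f μ)
    (h1 : ∫⁻ y, f y ^ p ∂μ < ∞) (h2 : ∫⁻ y, g y ^ p ∂μ < ∞) :
    ∫⁻ y, (f y + g y) ^ p ∂μ < ∞ := by
  refine lt_of_le_of_lt (lint_add_lt hp hf) ?_
  have h2' : (2 : ℝ≥0∞) ^ (p - 1) < ∞ :=
    lt_top_iff_ne_top.2 (ENNReal.rpow_ne_top_of_nonneg (by linarith) (by simp))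
  exact ENNReal.mul_lt_top h2' (ENNReal.add_lt_top.2 ⟨h1, h2⟩)

lemma int_mono (c : Crv X) {f g : X → ℝ≥0∞} (h : ∀ x, f x ≤ g x) : c.int f ≤ c.int g :=
  lintegral_mono (fun _ => h _)

lemma int_add [BorelSpace X] (c : Crv X) {f : X → ℝ≥0∞} (hf : Measurable f) (g : X → ℝ≥0∞) :
    c.int (fun x => f x + g x) = c.int f + c.int g := by
  unfold Crv.int
  have h1 : Measurable (fun t : ℝ => f (c.γ t)) := hf.comp c.lip.continuous.measurable
  exact lintegral_add_left h1 _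

theorem main {X : Type*} [MetricSpace X] [ProperSpace X] [MeasurableSpace X] [BorelSpace X]
    (μ : Measure X) (p : ℝ) (hp : 1 < p) (h : S_WU μ p) :
    S_MONO μ p ∧ S_SUB μ p ∧ S_NEG μ p := by
  classical
  have hp0 : 0 < p := by linarith
  refine ⟨?_, ?_, ?_⟩
  · intro A B x r R hAB hrR
    rw [le_capB_iff]
    intro u h1 h2 h3 h4 g h5
    exact capB_le μ p A x R h1 h2 (fun y hy => h3 y (hAB hy))
      (fun y hy => h4 y (fun hy' => hy (ball_subset_ball hrR hy'))) h5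
  · intro A B x r
    set k : ℝ≥0∞ := ENNReal.ofReal (2 ^ p) with hk
    have hk0 : k ≠ 0 := by
      rw [hk]; simp only [ne_eq, ENNReal.ofReal_eq_zero, not_le]; positivity
    have hkt : k ≠ ∞ := ENNReal.ofReal_ne_top
    have hk2 : (2 : ℝ≥0∞) ^ (p - 1) ≤ k := by
      rw [hk, ← ENNReal.ofReal_rpow_of_pos (by norm_num)]
      rw [show ENNReal.ofReal 2 = 2 by norm_num]
      exact ENNReal.rpow_le_rpow_of_exponent_le (by norm_num) (by linarith)
    set c : ℝ≥0∞ := capB μ p (A ∪ B) x r with hc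
    have key : ∀ u1 : X → ℝ, AEMeasurable u1 μ →
        ∫⁻ y, (ENNReal.ofReal |u1 y|) ^ p ∂μ < ∞ → (∀ y ∈ A, 1 ≤ u1 y) →
        (∀ y, y ∉ ball x r → u1 y = 0) → ∀ g1, WUG μ p u1 g1 →
        ∀ u2 : X → ℝ, AEMeasurable u2 μ →
        ∫⁻ y, (ENNReal.ofReal |u2 y|) ^ p ∂μ < ∞ → (∀ y ∈ B, 1 ≤ u2 y) →
        (∀ y, y ∉ ball x r → u2 y = 0) → ∀ g2, WUG μ p u2 g2 →
        c ≤ (∫⁻ y, g1 y ^ p ∂μ + ∫⁻ y, g2 y ^ p ∂μ) * k := by
      intro u1 a1 a2 a3 a4 g1 a5 u2 b1 b2 b3 b4 g2 b5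
      obtain ⟨mg1, h1, mh1, fh1, ch1⟩ := (h u1 g1).1 a5
      obtain ⟨mg2, h2, mh2, fh2, ch2⟩ := (h u2 g2).1 b5
      have hu : AEMeasurable (fun y => |u1 y| + |u2 y|) μ :=
        (continuous_abs.measurable.comp_aemeasurable a1).add
          (continuous_abs.measurable.comp_aemeasurable b1)
      have hfin : ∫⁻ y, (ENNReal.ofReal |(|u1 y| + |u2 y|)|) ^ p ∂μ < ∞ := by
        have e : ∀ y, ENNReal.ofReal |(|u1 y| + |u2 y|)| =
            ENNReal.ofReal |u1 y| + ENNReal.ofReal |u2 y| := by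
          intro y
          rw [abs_of_nonneg (by positivity), ENNReal.ofReal_add (abs_nonneg _) (abs_nonneg _)]
        simp only [e]
        exact lint_add_fin hp
          (ENNReal.measurable_ofReal.comp_aemeasurable
            (continuous_abs.measurable.comp_aemeasurable a1)) a2 b2
      have hge : ∀ y ∈ A ∪ B, 1 ≤ |u1 y| + |u2 y| := by
        rintro y (hy | hy)
        · have := a3 y hy
          have := le_abs_self (u1 y)
          have := abs_nonneg (u2 y)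
          linarith
        · have := b3 y hy
          have := le_abs_self (u2 y)
          have := abs_nonneg (u1 y)
          linarith
      have hz : ∀ y, y ∉ ball x r → |u1 y| + |u2 y| = 0 := by
        intro y hy
        rw [a4 y hy, b4 y hy]; simp
      have hW : WU μ p (fun y => |u1 y| + |u2 y|) (fun y => g1 y + g2 y) := by
        refine ⟨mg1.add mg2, fun y => h1 y + h2 y, mh1.add mh2,
          lint_add_fin hp mh1.aemeasurable fh1 fh2, ?_⟩
        intro cc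
        rcases ch1 cc with q1 | q1
        · rcases ch2 cc with q2 | q2
          · left
            unfold CrvIneq at q1 q2 ⊢
            rw [int_add cc mg1 g2]
            refine le_trans ?_ (add_le_add q1 q2)
            rw [← ENNReal.ofReal_add (abs_nonneg _) (abs_nonneg _)]
            apply ENNReal.ofReal_le_ofReal
            have e1 := abs_abs_sub_abs_le_abs_sub (u1 (cc.γ 0)) (u1 (cc.γ cc.l))
            have e2 := abs_abs_sub_abs_le_abs_sub (u2 (cc.γ 0)) (u2 (cc.γ cc.l))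
            have e3 := abs_add_le (|u1 (cc.γ 0)| - |u1 (cc.γ cc.l)|)
              (|u2 (cc.γ 0)| - |u2 (cc.γ cc.l)|)
            have e4 : |u1 (cc.γ 0)| + |u2 (cc.γ 0)| - (|u1 (cc.γ cc.l)| + |u2 (cc.γ cc.l)|) =
              (|u1 (cc.γ 0)| - |u1 (cc.γ cc.l)|) + (|u2 (cc.γ 0)| - |u2 (cc.γ cc.l)|) := by ring
            show |(|u1 (cc.γ 0)| + |u2 (cc.γ 0)|) - (|u1 (cc.γ cc.l)| + |u2 (cc.γ cc.l)|)| ≤ _
            rw [e4]
            linarith
          · right
            exact top_le_iff.1 (q2 ▸ int_mono cc (fun y => le_add_self))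
        · right
          exact top_le_iff.1 (q1 ▸ int_mono cc (fun y => le_self_add))
      have h5 := capB_le μ p (A ∪ B) x r hu hfin hge hz ((h _ _).2 hW)
      refine le_trans h5 (le_trans (lint_add_lt hp mg1.aemeasurable) ?_)
      rw [mul_comm]
      exact mul_le_mul_right hk2 _
    have s1 : ∀ u1 : X → ℝ, AEMeasurable u1 μ →
        ∫⁻ y, (ENNReal.ofReal |u1 y|) ^ p ∂μ < ∞ → (∀ y ∈ A, 1 ≤ u1 y) →
        (∀ y, y ∉ ball x r → u1 y = 0) → ∀ g1, WUG μ p u1 g1 →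
        c / k - ∫⁻ y, g1 y ^ p ∂μ ≤ capB μ p B x r := by
      intro u1 a1 a2 a3 a4 g1 a5
      rw [le_capB_iff]
      intro u2 b1 b2 b3 b4 g2 b5
      rw [tsub_le_iff_left]
      exact ENNReal.div_le_of_le_mul (key u1 a1 a2 a3 a4 g1 a5 u2 b1 b2 b3 b4 g2 b5)
    have s2 : c / k - capB μ p B x r ≤ capB μ p A x r := by
      rw [le_capB_iff]
      intro u1 a1 a2 a3 a4 g1 a5
      have := s1 u1 a1 a2 a3 a4 g1 a5
      rw [tsub_le_iff_left] at this ⊢
      rwa [add_comm]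
    rw [tsub_le_iff_right] at s2
    have s3 := (ENNReal.div_le_iff hk0 hkt).1 s2
    rwa [mul_comm] at s3
  · intro Z hZ A x r R hrR
    obtain ⟨hZ0, hz, mhz, fhz, chz⟩ := hZ
    rw [le_capB_iff]
    intro u h1 h2 h3 h4 g h5
    obtain ⟨mg, h0, mh0, fh0, ch0⟩ := (h u g).1 h5
    set u' : X → ℝ := fun y => if y ∈ Z ∩ ball x r then 1 else u y with hu'
    have hae : u =ᵐ[μ] u' := by
      have : ∀ᵐ y ∂μ, y ∉ Z := by
        rw [ae_iff]; simpa using hZ0
      filter_upwards [this] with y hy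
      simp [hu', hy]
    have m1 : AEMeasurable u' μ := h1.congr hae
    have m2 : ∫⁻ y, (ENNReal.ofReal |u' y|) ^ p ∂μ < ∞ := by
      have : ∫⁻ y, (ENNReal.ofReal |u' y|) ^ p ∂μ = ∫⁻ y, (ENNReal.ofReal |u y|) ^ p ∂μ := by
        apply lintegral_congr_ae
        filter_upwards [hae] with y hy
        rw [hy]
      rw [this]; exact h2
    have m3 : ∀ y ∈ (A ∪ Z) ∩ ball x r, 1 ≤ u' y := by
      rintro y ⟨hy1, hy2⟩
      by_cases hyZ : y ∈ Z
      · have : y ∈ Z ∩ ball x r := ⟨hyZ, hy2⟩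
        simp only [hu', this, if_true]
        exact le_rfl
      · have hyA : y ∈ A := by
          rcases hy1 with hy1 | hy1
          · exact hy1
          · exact absurd hy1 hyZ
        simp only [hu', mem_inter_iff, hyZ, false_and, if_false]
        exact h3 y ⟨hyA, hy2⟩
    have m4 : ∀ y, y ∉ ball x R → u' y = 0 := by
      intro y hy
      have hy' : y ∉ ball x r := fun hh => hy (ball_subset_ball hrR hh)
      have : ¬ (y ∈ Z ∩ ball x r) := fun hh => hy' hh.2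
      simp only [hu', this, if_false]
      exact h4 y hy
    have hW : WU μ p u' g := by
      refine ⟨mg, fun y => h0 y + hz y, mh0.add mhz,
        lint_add_fin hp mh0.aemeasurable fh0 fhz, ?_⟩
      intro cc
      rcases cc.nonneg.eq_or_lt with hl | hl
      · left
        unfold CrvIneq
        rw [← hl]; simp
      · rcases chz cc hl with q | q
        · rcases ch0 cc with q2 | q2
          · left
            have e1 : u' (cc.γ 0) = u (cc.γ 0) := by
              have : cc.γ 0 ∉ Z := q 0 ⟨le_rfl, hl.le⟩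
              simp [hu', this]
            have e2 : u' (cc.γ cc.l) = u (cc.γ cc.l) := by
              have : cc.γ cc.l ∉ Z := q cc.l ⟨hl.le, le_rfl⟩
              simp [hu', this]
            unfold CrvIneq at q2 ⊢
            rw [e1, e2]; exact q2
          · right
            exact top_le_iff.1 (q2 ▸ int_mono cc (fun y => le_self_add))
        · right
          exact top_le_iff.1 (q ▸ int_mono cc (fun y => le_add_self))
    exact capB_le μ p _ x R m1 m2 m3 m4 ((h _ _).2 hW)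

end Pool.Agent.W576.FD
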